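import Pool.Agent.K6.H99.RO.Conv
import Pool.Agent.K6.H99.RO.Cpt
import Pool.Agent.K6.H99.RO.Walls

/-!
# Rank one isometries, asymptotically disjoint ping-pong pairs, boundaries and walls

Let `G` act geometrically on a proper CAT(0) space `X` (not necessarily geodesically complete).

(1) An element `g` is rank one if and only if it has infinite order and some power `γ = g ^ m`,
`m ≥ 1`, has a ping-pong pair: infinite subsets `U`, `V` of `G` such that `U s` meets `V` in a
finite set for every `s` in `G` (asymptotic disjointness; in other words `U` and `V` have disjoint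
closures in the Higson corona of `G`), and such that `γ x ∈ U` for all but finitely many `x ∉ V`.

(2) Let `G` act by homeomorphisms on a compact Hausdorff space `K` and let `k` be a point with a
null orbit: `x s k` and `x k` are asymptotically equal as `x → ∞` in `G`, for every `s`.  Let `Λ` be
the limit set of the orbit.  If `g ^ m` maps `Λ ∖ B` into `A`, where `A` and `B` are disjoint closed
sets, `B` meets `Λ` and `A ∪ B` does not contain `Λ`, then `g` is rank one.  If `Λ` has at least
three points and the action on `Λ` is extremely proximal (every closed proper subset of `Λ` can be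
moved into every given nonempty open subset) then `G` contains a rank one isometry.

(3) Let `G` act on a set `Y` and let `h` be a subset of `Y` (a halfspace) such that any two points of
`Y` are separated by only finitely many translates of `h`, for instance a half-tree of a tree or a
halfspace of a CAT(0) cube complex of any dimension.  If `Stab(h) ∩ Stab(g ^ m h)` is finite and
`g ^ m h ⊊ h` then `g` is rank one.  If `G` and `Stab(h)` are one-ended then it is not necessary
that `g ^ m h` is contained in `h`: it is enough that the orbit of some point `y` under `g` goes from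
the complement of `h` to `h`.

Idea of the proof of (1).  Let `c` be an axis of `γ`, let `H` be a flat half-plane bounded by `c`.
The pattern of the orbits `j ↦ γ ^ j x` at `±∞` is eventually in `U` or eventually in `V`, and
it is the same for all `x`.  In the main case the orbits come from `V` and go to `U`.  At a large
height `s₀` all orbits avoid the finitely many exceptional elements of `G`.  Follow elements `r n`
near the points `H (2 n τ, s₀)`.  From `n` to `n + 1` the position at which the orbit leaves `V`
moves by at most one period.  But `γ ^ (-2n) r n` is in a fixed finite set, so the position has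
moved by `2 n` periods after `n` steps, a contradiction.
Conversely the projections to a rank one axis give `U` and `V`.
In the one-ended case of (3) the set `A = {x | x y ∈ h}` has a coboundary contained in finitely
many cosets of `H = Stab(h)`.  As `H ∩ γ H γ⁻¹` is finite and `H` is one-ended, `H` is almost
contained in one side of `γ A` and `γ H` is almost contained in one side of `A`.  So one of the four
corners of `A` and `γ A` has a finite coboundary.  As `G` is one-ended this corner is finite, and
only the case of `γ A ⊂ A` (up to a finite set) is compatible with the orbit of `y`; the case of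
`A ⊂ γ A` is excluded by (the combinatorial part of) the proof of (1) for `γ⁻¹`.
-/

set_option autoImplicit false

universe u v

namespace Pool.Agent.Results.MP_ff40e8_al.AsymptoticPingPong

open Set Filter Topology Pointwise

/-- The inequality of Bruhat and Tits: a complete metric space is CAT(0) if and only if any two
points `p`, `q` have a midpoint `m` such that
`d(x, m)² ≤ (d(x, p)² + d(x, q)²) / 2 - d(p, q)² / 4` for all `x`. -/
def BruhatTits (X : Type) [MetricSpace X] : Prop := ∀ p q : X, ∃ m : X, ∀ x : X,
  dist x m ^ 2 ≤ (dist x p ^ 2 + dist x q ^ 2) / 2 - dist p q ^ 2 / 4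

/-- The line `c` bounds a flat half-plane: there is an isometric embedding `H` of the Euclidean
half-plane `ℝ × [0, ∞)` in `X` which extends `c`. -/
def BoundsHalfPlane {X : Type} [MetricSpace X] (c : ℝ → X) : Prop :=
  ∃ H : ℝ × NNReal → X,
    (∀ p q : ℝ × NNReal, dist (H p) (H q) ^ 2 = (p.1 - q.1) ^ 2 + ((p.2 : ℝ) - q.2) ^ 2) ∧
    ∀ t : ℝ, H (t, 0) = c t

/-- `g` is a rank one isometry of `X`: it translates a geodesic line `c` by `τ > 0`, and this axis
does not bound a flat half-plane. -/
def IsRankOne (X : Type) [MetricSpace X] {G : Type} [Group G] [MulAction G X] (g : G) : Prop :=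
  ∃ (τ : ℝ) (c : ℝ → X), 0 < τ ∧ Isometry c ∧ (∀ t, g • c t = c (t + τ)) ∧ ¬ BoundsHalfPlane c

/-- `(U, V)` is a ping-pong pair for `γ`: `U` and `V` are infinite, they are asymptotically
disjoint (for every `s` there are only finitely many `x ∈ U` with `x s ∈ V`), and `γ` maps the
complement of `V` into `U`, up to finitely many elements. -/
structure PingPong {G : Type} [Group G] (γ : G) (U V : Set G) : Prop where
  infU : U.Infinite
  infV : V.Infinite
  disj : ∀ s : G, {x | x ∈ U ∧ x * s ∈ V}.Finite
  move : {x | x ∉ V ∧ γ * x ∉ U}.Finite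

/-- The orbit of `k` is null: for every `s` in `G` the points `x s k` and `x k` are asymptotically
equal as `x` leaves the finite subsets of `G` (tested with the continuous functions). -/
def NullOrbit (G : Type) [Group G] {K : Type u} [TopologicalSpace K] [MulAction G K] (k : K) :
    Prop :=
  ∀ (s : G) (f : C(K, ℝ)) (ε : ℝ), 0 < ε → {x : G | ε ≤ |f ((x * s) • k) - f (x • k)|}.Finite

/-- The limit set of the orbit of `k`: the points such that every neighbourhood contains `x k` for
infinitely many `x` in `G`. -/
def LimitSet (G : Type) [Group G] {K : Type u} [TopologicalSpace K] [MulAction G K] (k : K) :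
    Set K :=
  {z | ∀ N ∈ 𝓝 z, {x : G | x • k ∈ N}.Infinite}

/-- Any two points of `Y` are separated by only finitely many translates of `h`. -/
def FinitelySeparating (G : Type) [Group G] {Y : Type v} [MulAction G Y] (h : Set Y) : Prop :=
  ∀ x y : Y, {A : Set Y | (∃ k : G, A = k • h) ∧ x ∈ A ∧ y ∉ A}.Finite

/-- The group `Q` has at most one end: every subset with finite coboundaries is finite or has a
finite complement. -/
def AtMostOneEnd (Q : Type) [Group Q] : Prop :=
  ∀ C : Set Q, (∀ s : Q, {x | x ∈ C ∧ x * s ∉ C}.Finite) → C.Finite ∨ Cᶜ.Finite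

/-- Let `G` act geometrically (by isometries, properly discontinuously, cocompactly) on a proper
CAT(0) space `X` and let `g` be an element of `G`.
(1) `g` is rank one if and only if it has infinite order and some power `g ^ m`, `m ≥ 1`, has a
ping-pong pair.
(2) Let `G` act by homeomorphisms on a compact Hausdorff space `K` and let `k` be a point with a
null orbit, with limit set `Λ`.  (a) If `A` and `B` are disjoint closed subsets of `K`, `g ^ m` maps
`Λ ∖ B` into `A` for some `m ≥ 1`, `B` meets `Λ` and `Λ` is not contained in `A ∪ B`, then `g` is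
rank one.  (b) If `Λ` has at least three points and for every closed proper subset `C` of `Λ` and
every open set `O` which meets `Λ` there is an element of `G` which maps `C` into `O`, then `G`
contains a rank one isometry.
(3) Let `G` act on a set `Y`, let `h ⊆ Y` be such that any two points of `Y` are separated by only
finitely many translates of `h`, let `m ≥ 1` and suppose that `Stab(h) ∩ Stab(g ^ m h)` is finite.
(a) If `g ^ m h ⊊ h` then `g` is rank one.  (b) If `G` and `Stab(h)` have at most one end, `Stab(h)`
is infinite and for some `y` in `Y` the points `g ^ j y` are in `h` and the points `g ^ (-j) y` are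
not in `h` for all large `j`, then `g` is rank one. -/
theorem result {X : Type} [MetricSpace X] [ProperSpace X] [Nonempty X] (hX : BruhatTits X)
    {G : Type} [Group G] [MulAction G X] [IsIsometricSMul G X] [ProperlyDiscontinuousSMul G X]
    (hcc : ∃ C : Set X, IsCompact C ∧ ∀ x : X, ∃ g : G, g • x ∈ C) (g : G) :
    (IsRankOne X g ↔
      ¬ IsOfFinOrder g ∧ ∃ (m : ℕ) (U V : Set G), 0 < m ∧ PingPong (g ^ m) U V) ∧
    (∀ (K : Type u) [TopologicalSpace K] [CompactSpace K] [T2Space K] [MulAction G K]
      [ContinuousConstSMul G K] (k : K), NullOrbit G k →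
      (∀ (m : ℕ) (A B : Set K), 0 < m → IsClosed A → IsClosed B → Disjoint A B →
        (∀ z ∈ LimitSet G k, z ∉ B → g ^ m • z ∈ A) → (LimitSet G k ∩ B).Nonempty →
        (∃ z ∈ LimitSet G k, z ∉ A ∧ z ∉ B) → IsRankOne X g) ∧
      ((∃ a ∈ LimitSet G k, ∃ b ∈ LimitSet G k, ∃ z ∈ LimitSet G k, a ≠ b ∧ a ≠ z ∧ b ≠ z) →
        (∀ C : Set K, IsClosed C → C ⊆ LimitSet G k → C ≠ LimitSet G k → ∀ O : Set K, IsOpen O →
          (O ∩ LimitSet G k).Nonempty → ∃ h : G, ∀ z ∈ C, h • z ∈ O) →
        ∃ h : G, IsRankOne X h)) ∧
    (∀ (Y : Type v) [MulAction G Y] (h : Set Y) (m : ℕ), FinitelySeparating G h → 0 < m →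
      ((MulAction.stabilizer G h ⊓ MulAction.stabilizer G (g ^ m • h) : Subgroup G) :
        Set G).Finite →
      (g ^ m • h ⊂ h → IsRankOne X g) ∧
      (AtMostOneEnd G → AtMostOneEnd (MulAction.stabilizer G h) →
        (MulAction.stabilizer G h : Set G).Infinite → ∀ y : Y, (∀ᶠ j : ℕ in atTop, g ^ j • y ∈ h) →
        (∀ᶠ j : ℕ in atTop, g⁻¹ ^ j • y ∉ h) → IsRankOne X g)) := by
  have hG : Pool.Agent.Y34.HB.Geo X G := ⟨inferInstance, inferInstance, inferInstance, hcc, hX⟩
  have conv : ∀ g : G, (∃ (τ : ℝ) (c : ℝ → X), 0 < τ ∧ Pool.Agent.Y34.HB.Axis g τ c ∧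
      Pool.Agent.Y34.HB.HP c = ∅) → IsRankOne X g := by
    rintro g ⟨τ, c, hτ, hc, he⟩
    refine ⟨τ, c, hτ, hc.1, hc.2, ?_⟩
    rintro ⟨H, hH⟩
    have : H ∈ Pool.Agent.Y34.HB.HP c := hH
    rw [he] at this
    exact this
  refine ⟨⟨?_, ?_⟩, fun K _ _ _ _ _ k hk => ⟨?_, ?_⟩, fun Y _ h m hs hm hf => ⟨?_, ?_⟩⟩
  · rintro ⟨τ, c, hτ, hc1, hc2, hc3⟩
    obtain ⟨h1, m, U, V, hm, hU, hV, hp⟩ := Pool.Agent.K6.H99.RO.pair_of_rank_one hG hτ
      (g := g) (c := c) ⟨hc1, hc2⟩ (by
        by_contra hne
        obtain ⟨H, hH⟩ := nonempty_iff_ne_empty.2 hne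
        exact hc3 ⟨H, hH⟩)
    exact ⟨h1, m, U, V, hm, hU, hV, hp.ad, hp.pp⟩
  · rintro ⟨h1, m, U, V, hm, hU, hV, h2, h3⟩
    exact conv g (Pool.Agent.K6.H99.RO.rank_one_of_pair hG h1 hm hU hV ⟨h2, h3⟩)
  · intro m A B hm hA hB hAB h1 h2 h3
    exact conv g (Pool.Agent.K6.H99.RO.rank_one_of_cpt hG hk hm hA hB hAB h1 h2 h3)
  · intro h3 hep
    obtain ⟨h, hh⟩ := Pool.Agent.K6.H99.RO.rank_one_of_ep (X := X) hG hk h3 hep
    exact ⟨h, conv h hh⟩
  · intro hn
    exact conv g (Pool.Agent.K6.H99.RO.rank_one_of_nested hG hs hm hn hf)
  · intro h1 h2 h3 y hp hn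
    exact conv g (Pool.Agent.K6.H99.RO.rank_one_of_oneEnd hG hs h1 h3 h2 hm hp hn hf)

end Pool.Agent.Results.MP_ff40e8_al.AsymptoticPingPong
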