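import Pool.Agent.Y34.EL.All
import Pool.Agent.K6.H51.RG.Quad

/-!
# Rank one isometries can be recognised at a single scale: a gap with a universal constant

Let `G` act geometrically on a proper geodesically complete CAT(0) space `X`.  Theorem: the
following are equivalent.
(i) `G` contains a rank one isometry of `X`.
(ii) For some point `o` and some `r ≥ 0` there are two points of the sphere `S(o, r)` which are not
joined, on this sphere, by a chain with at most `42 (r + 1)` steps of length at most one.
(iii) The divergence of `X` is at least quadratic: there are `o`, `κ > 0` and, for every large `r`,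
two points of `S(o, r)` such that every chain outside of the ball with steps of length at most one
which joins them has at least `κ r ^ 2` steps.

So if at a single scale `r`, and for a single centre, the divergence is greater than `42 (r + 1)` then
`G` contains a rank one isometry and the divergence is at least quadratic at all large scales.  The
constant does not depend on `X` and `G`, and condition (ii) is about a bounded part of `X`.

Idea of the proof.  (ii) ⟹ (i): `linked` in project EL of the starting library gives chains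
between the points of two rays if there are no rank one isometries.  (i) ⟹ (iii): let `c` be the axis of
a rank one isometry, `τ` the translation length.  Segments with distant projections to `c` pass
near a point `c (i τ)` (project RC of the starting library).  So a block of `r / 4` steps outside of
the ball of radius `r` around `c 0` can not move the projection to `c` by more than a constant while
this projection is in `[-r / 2, r / 2]`.
-/

set_option autoImplicit false

namespace Pool.Agent.Results.MP_ff40e8_al.DivergenceGap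

open Set Metric

/-- The inequality of Bruhat and Tits: a complete metric space is CAT(0) if and only if any two
points `p`, `q` have a midpoint `m` such that
`d(x, m)² ≤ (d(x, p)² + d(x, q)²) / 2 - d(p, q)² / 4` for all `x`. -/
def BruhatTits (X : Type) [MetricSpace X] : Prop := ∀ p q : X, ∃ m : X, ∀ x : X,
  dist x m ^ 2 ≤ (dist x p ^ 2 + dist x q ^ 2) / 2 - dist p q ^ 2 / 4

/-- Every geodesic segment extends to a geodesic line: for `p ≠ q` there is a line through `p` and
`q` (in a CAT(0) space it contains the unique geodesic segment from `p` to `q`). -/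
def GeodesicallyComplete (X : Type) [MetricSpace X] : Prop :=
  ∀ p q : X, p ≠ q → ∃ c : ℝ → X, Isometry c ∧ c 0 = p ∧ c (dist p q) = q

/-- The line `c` bounds a flat half-plane: there is an isometric embedding `H` of the Euclidean
half-plane `ℝ × [0, ∞)` in `X` which extends `c`. -/
def BoundsHalfPlane {X : Type} [MetricSpace X] (c : ℝ → X) : Prop :=
  ∃ H : ℝ × NNReal → X,
    (∀ p q : ℝ × NNReal, dist (H p) (H q) ^ 2 = (p.1 - q.1) ^ 2 + ((p.2 : ℝ) - q.2) ^ 2) ∧
    ∀ t : ℝ, H (t, 0) = c t

/-- `g` is a rank one isometry of `X`: it translates a geodesic line `c` by `τ > 0`, and this axis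
does not bound a flat half-plane. -/
def IsRankOne (X : Type) [MetricSpace X] {G : Type} [Group G] [MulAction G X] (g : G) : Prop :=
  ∃ (τ : ℝ) (c : ℝ → X), 0 < τ ∧ Isometry c ∧ (∀ t, g • c t = c (t + τ)) ∧ ¬ BoundsHalfPlane c

/-- `y 0, …, y n` is a chain from `a` to `b` with steps of length at most one. -/
structure IsChain {X : Type} [MetricSpace X] (n : ℕ) (y : ℕ → X) (a b : X) : Prop where
  start : y 0 = a
  finish : y n = b
  step : ∀ i, i < n → dist (y i) (y (i + 1)) ≤ 1

/-- Any two points of the sphere `S(o, r)` are joined by a chain of points of this sphere with at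
most `42 (r + 1)` steps. -/
def SphereConnected {X : Type} [MetricSpace X] (o : X) (r : ℝ) : Prop :=
  ∀ a b : X, dist o a = r → dist o b = r → ∃ (n : ℕ) (y : ℕ → X), (n : ℝ) ≤ 42 * (r + 1) ∧
    IsChain n y a b ∧ ∀ i, i ≤ n → dist o (y i) = r

/-- The divergence of `X` is at least quadratic: for some `o`, `κ > 0` and all large `r` there are
points `a`, `b` of the sphere `S(o, r)` such that every chain from `a` to `b` outside of the open ball
has at least `κ r ^ 2` steps. -/
def QuadraticDivergence (X : Type) [MetricSpace X] : Prop :=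
  ∃ (o : X) (κ r₀ : ℝ), 0 < κ ∧ ∀ r : ℝ, r₀ ≤ r → ∃ a b : X, dist o a = r ∧ dist o b = r ∧
    ∀ (n : ℕ) (y : ℕ → X), IsChain n y a b → (∀ i, i ≤ n → r ≤ dist o (y i)) → κ * r ^ 2 ≤ n

/-- Let `G` act geometrically (by isometries, properly discontinuously, cocompactly) on a proper
geodesically complete CAT(0) space `X`.  Then `G` contains a rank one isometry of `X` if and only if
for some `o ∈ X` and some `r ≥ 0` two points of the sphere `S(o, r)` are not joined on this sphere by
at most `42 (r + 1)` steps of length at most one; and if and only if the divergence of `X` is at least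
quadratic. -/
theorem result {X : Type} [MetricSpace X] [ProperSpace X] (hX : BruhatTits X)
    (hc : GeodesicallyComplete X)
    {G : Type} [Group G] [MulAction G X] [IsIsometricSMul G X] [ProperlyDiscontinuousSMul G X]
    (hcc : ∃ K : Set X, IsCompact K ∧ ∀ x : X, ∃ g : G, g • x ∈ K) :
    ((∃ g : G, IsRankOne X g) ↔ ∃ (o : X) (r : ℝ), 0 ≤ r ∧ ¬ SphereConnected o r) ∧
    ((∃ g : G, IsRankOne X g) ↔ QuadraticDivergence X) := by
  have hG : Pool.Agent.Y34.HB.Geo X G := ⟨inferInstance, inferInstance, inferInstance, hcc, hX⟩
  -- from a rank one isometry to quadratic divergence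
  have h1 : (∃ g : G, IsRankOne X g) → QuadraticDivergence X := by
    rintro ⟨g, τ, c, hτ, hc1, hc2, hc3⟩
    have hHP : Pool.Agent.Y34.HB.HP c = ∅ := by
      rw [Set.eq_empty_iff_forall_notMem]
      intro H hH
      exact hc3 ⟨H, hH⟩
    obtain ⟨R, D, hP⟩ := Pool.Agent.T6.H46.RC.pass_of_axis hX hτ
      (⟨hc1, hc2⟩ : Pool.Agent.Y34.HB.Axis g τ c) hHP
    obtain ⟨κ, r₀, hκ, hq⟩ := Pool.Agent.K6.H51.RG.quad hP
    refine ⟨c 0, κ, max r₀ 0, hκ, fun r hr => ⟨c (-r), c r, ?_, ?_, ?_⟩⟩
    · rw [hc1.dist_eq, Real.dist_eq, zero_sub, neg_neg,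
        abs_of_nonneg ((le_max_right _ _).trans hr)]
    · rw [hc1.dist_eq, Real.dist_eq, zero_sub, abs_neg,
        abs_of_nonneg ((le_max_right _ _).trans hr)]
    · intro n y hy hout
      exact hq r ((le_max_left _ _).trans hr) n y hy.start hy.finish hout hy.step
  -- from quadratic divergence to a bad sphere
  have h2 : QuadraticDivergence X → ∃ (o : X) (r : ℝ), 0 ≤ r ∧ ¬ SphereConnected o r := by
    rintro ⟨o, κ, r₀, hκ, h⟩
    set r : ℝ := max r₀ (84 / κ + 1) with hr
    have hr0 : 84 / κ + 1 ≤ r := le_max_right _ _
    have hκ84 : 0 < 84 / κ := by positivity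
    refine ⟨o, r, by linarith, fun hS => ?_⟩
    obtain ⟨a, b, ha, hb, hab⟩ := h r (le_max_left _ _)
    obtain ⟨n, y, hn, hy, hs⟩ := hS a b ha hb
    have h3 := hab n y hy (fun i hi => (hs i hi).ge)
    have h4 : κ * (84 / κ + 1) ≤ κ * r := mul_le_mul_of_nonneg_left hr0 hκ.le
    have h5 : κ * (84 / κ + 1) = 84 + κ := by field_simp
    have h6 : (84 + κ) * r ≤ κ * r ^ 2 := by
      have : (84 + κ) * r ≤ κ * r * r := mul_le_mul_of_nonneg_right (by linarith) (by linarith)
      nlinarith
    nlinarith
  -- from a bad sphere to a rank one isometry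
  have h3 : (∃ (o : X) (r : ℝ), 0 ≤ r ∧ ¬ SphereConnected o r) → ∃ g : G, IsRankOne X g := by
    rintro ⟨o, r, hr, hS⟩
    by_contra hno
    apply hS
    have hno' : ∀ g : G, ¬ Pool.Agent.Y34.EL.RankOne X g := by
      rintro g ⟨τ, c, hτ, hc', he⟩
      refine hno ⟨g, τ, c, hτ, hc'.1, hc'.2, ?_⟩
      rintro ⟨H, hH⟩
      have : H ∈ Pool.Agent.Y34.HB.HP c := hH
      rw [he] at this
      exact this
    intro a b ha hb
    rcases hr.eq_or_lt with h0 | h0
    · have ha' : o = a := dist_eq_zero.1 (ha.trans h0.symm)
      have hb' : o = b := dist_eq_zero.1 (hb.trans h0.symm)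
      refine ⟨0, fun _ => a, by push_cast; linarith, ⟨rfl, ha'.symm.trans hb', fun i hi => ?_⟩,
        fun i _ => ha⟩
      omega
    · have hoa : o ≠ a := by
        rintro rfl
        rw [dist_self] at ha
        linarith
      have hob : o ≠ b := by
        rintro rfl
        rw [dist_self] at hb
        linarith
      obtain ⟨c₁, h4, h5, h6⟩ := hc o a hoa
      obtain ⟨c₂, h7, h8, h9⟩ := hc o b hob
      have hray : ∀ c : ℝ → X, Isometry c → c 0 = o → Pool.Agent.Y34.EL.Ray o c := by
        intro c hci hc0
        exact ⟨hc0, fun s t _ _ => by rw [hci.dist_eq, Real.dist_eq]⟩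
      obtain ⟨n, y, g1, g2, g3, g4, g5⟩ := Pool.Agent.Y34.EL.linked hG hno' o c₁ c₂
        (hray c₁ h4 h5) (hray c₂ h7 h8) r hr
      rw [ha] at h6
      rw [hb] at h9
      exact ⟨n, y, g1, ⟨g2.trans h6, g3.trans h9, g5⟩, g4⟩
  exact ⟨⟨fun h => h2 (h1 h), h3⟩, ⟨h1, fun h => h3 (h2 h)⟩⟩

end Pool.Agent.Results.MP_ff40e8_al.DivergenceGap
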