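import Pool.Agent.K6.H64.RA.Main
import Pool.Agent.K6.H64.RB.Main

/-!
# Rank rigidity for CAT(0) groups which split over a subgroup with a virtually abelian or a convex
# cocompact intersection with some conjugate

Let `G` act geometrically on a geodesically complete proper CAT(0) space `X`, and let `G` act on a
tree `T`.  Let `e` be an edge of `T` such that both half-trees bounded by `e` can be moved off
themselves by elements of `G`, and let `K` be the pointwise stabiliser of `e`.  There is no
hypothesis on `K` itself.  The condition on the half-trees holds for all nontrivial amalgams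
`A *_K B` and for all HNN extensions in which both edge groups are proper subgroups of the vertex
group.  Let `L = K ∩ gKg⁻¹` for some `g` in `G`.

(A) If `L` is virtually abelian then `G` contains a rank one isometry of `X`, or `X` is isometric to
a product `Y × ℝ`, where `Y` has more than one point.

(B) If `L` is convex cocompact, i.e. acts cocompactly on a closed convex subset `B` of `X`, and some
element of `L` is a rank one isometry of `B` (for instance `L` is infinite and hyperbolic), then `G`
contains a rank one isometry of `X`, or `X` is a product of two spaces with more than one point.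
More precisely one of the factors is a closed convex `L`-invariant subset of `B`.

Idea of the proof of (A).
(1) The edges `e` and `h e` are called coherent if they are on a directed path from `e` to `h e`.
One can take `g` such that `e` and `g e` are coherent.  Among all coherent prolongations of the
segment from `e` to `g e` one takes one, from `e` to `h₀ e`, for which the rank of the stabiliser `L`
is minimal.  So all elements of `L` have powers which fix any given further coherent prolongation.
(2) This is used for segments of the form `e, h₀ e, h₀ p h₀⁻¹ (h₀ e), h₀ p h₀⁻¹ e` (the last two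
edges are in the opposite direction), with `p` such that `e` and `p e` face each other.  So
`h₀ p h₀⁻¹` commensurates `L` for all such `p`.  If `c` is coherent then `c p` is of this form, so
`h₀ c h₀⁻¹` commensurates `L` for all coherent `c`, in particular `h₀` commensurates `L`.  Now all
coherent elements commensurate `L`, and it follows easily that all elements of `G` do this.
(3) If `L` is finite then `h₀` is a rank one isometry of `X`.
(4) If `L` is infinite let `A` be a finitely generated abelian subgroup of finite index of `L`.  The
points `x` such that for every `s` in `A` some power `s ^ m`, `m > 0`, moves `x` by the minimal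
amount form a nonempty set, which is invariant under `G`.  So for an element `b` of infinite order of
`A` all these points are on axes of powers of `b`, which are parallel lines.  The union of the lines
which are parallel to a given line is closed and convex; as `X` is geodesically complete it is `X`.

Idea of the proof of (B).  `L` is the stabiliser of the segment `σ` spanned by `e` and `g e`.
(1) Let `u`, `v` be elements such that `e, g e, u e` and `e, g e, v e` are in this order on a
segment, `e` and `u e` (`e` and `v e`) being directed in the same way.  If `L ∩ u⁻¹Lu` and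
`L ∩ vLv⁻¹` both contain no power of some conjugate of the rank one element of `L` then north-south
dynamics on `B` gives `d` in `L` such that `L ∩ u⁻¹Lu ∩ d(vLv⁻¹)d⁻¹` is finite.  The segments
`u⁻¹σ`, `σ`, `d v σ` are disjoint or have a common end edge, and lie on the axis of `d v u`, so that
a segment of this axis has a finite stabiliser and `d v u` is a rank one isometry of `X`.
(2) So without rank one isometries in `G`, `B` is at finite distance from `v B` for all these `v`, or
from `u⁻¹B` for all these `u`.  Let for example `e` and `g e` be directed in the same way, and let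
`e` and `p e` face each other.  In the first case one uses the elements `v` for which `v e` comes
after `e, g e, g p e, g p g⁻¹ e`: the group `L ∩ vLv⁻¹` fixes the whole segment from `e` to `v σ`, so
`B` is at finite distance from `g p g⁻¹ B`.  The second case is similar and gives the elements `q`
such that `e` and `q e` are back to back.  The elements `p` (and also the elements `q`) generate
`G`, so `B` is at finite distance from all its translates.
(3) Now `X` splits: this is the last step of the theorem on convex cocompact edge groups.
-/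

set_option autoImplicit false

namespace Pool.Agent.Results.MP_ff40e8_al.IntersectionsOfEdgeGroups

open Set Metric

/-- The inequality of Bruhat and Tits: a complete metric space is CAT(0) if and only if any two
points `p`, `q` have a midpoint `m` such that
`d(x, m)² ≤ (d(x, p)² + d(x, q)²) / 2 - d(p, q)² / 4` for all `x`. -/
def BruhatTits (X : Type) [MetricSpace X] : Prop := ∀ p q : X, ∃ m : X, ∀ x : X,
  dist x m ^ 2 ≤ (dist x p ^ 2 + dist x q ^ 2) / 2 - dist p q ^ 2 / 4

/-- Every geodesic segment extends to a geodesic line: for `p ≠ q` there is a line through `p` and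
`q` (in a CAT(0) space it contains the unique geodesic segment from `p` to `q`). -/
def GeodesicallyComplete (X : Type) [MetricSpace X] : Prop :=
  ∀ p q : X, p ≠ q → ∃ c : ℝ → X, Isometry c ∧ c 0 = p ∧ c (dist p q) = q

/-- The line `c` bounds a flat half-plane in the subset `B`: there is an isometric embedding `H`
of the Euclidean half-plane `ℝ × [0, ∞)` in `X`, with image in `B`, which extends `c`. -/
def BoundsHalfPlaneIn {X : Type} [MetricSpace X] (B : Set X) (c : ℝ → X) : Prop :=
  ∃ H : ℝ × NNReal → X,
    (∀ p q : ℝ × NNReal, dist (H p) (H q) ^ 2 = (p.1 - q.1) ^ 2 + ((p.2 : ℝ) - q.2) ^ 2) ∧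
    (∀ p : ℝ × NNReal, H p ∈ B) ∧ ∀ t : ℝ, H (t, 0) = c t

/-- `g` translates a geodesic line `c` in `B` by `τ > 0`, and this axis does not bound a flat
half-plane in `B`.  For `B = univ` this says that `g` is a rank one isometry of `X`, and for an
invariant closed convex set `B` it says that `g` is a rank one isometry of `B`. -/
def IsRankOneIn {X : Type} [MetricSpace X] {G : Type} [Group G] [MulAction G X] (B : Set X)
    (g : G) : Prop :=
  ∃ (τ : ℝ) (c : ℝ → X), 0 < τ ∧ Isometry c ∧ (∀ t, c t ∈ B) ∧ (∀ t, g • c t = c (t + τ)) ∧
    ¬ BoundsHalfPlaneIn B c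

/-- `B` is a nonempty closed convex subset of `X`, preserved by the subgroup `L`, which acts
cocompactly on `B`. -/
def ConvexCocompact {X : Type} [MetricSpace X] {G : Type} [Group G] [MulAction G X]
    (L : Subgroup G) (B : Set X) : Prop :=
  B.Nonempty ∧ IsClosed B ∧
    (∀ p ∈ B, ∀ q ∈ B, ∀ m, dist p m + dist m q = dist p q → m ∈ B) ∧
    (∀ g ∈ L, ∀ x ∈ B, g • x ∈ B) ∧
    ∃ C : Set X, IsCompact C ∧ ∀ x ∈ B, ∃ g ∈ L, g • x ∈ C

/-- `L` has a finitely generated abelian subgroup of finite index. -/
def VirtuallyFGAbelian {G : Type} [Group G] (L : Subgroup G) : Prop :=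
  ∃ A : Subgroup G, A ≤ L ∧ A.FG ∧ (∀ x ∈ A, ∀ y ∈ A, x * y = y * x) ∧ A.relIndex L ≠ 0

/-- The pointwise stabiliser of the edge `{a, b}`. -/
def EdgeStabilizer (G : Type) [Group G] {V : Type} [MulAction G V] (a b : V) : Subgroup G :=
  MulAction.stabilizer G a ⊓ MulAction.stabilizer G b

/-- The group `K ∩ gKg⁻¹`, where `K` is the pointwise stabiliser of the edge `{a, b}`. -/
def Intersection (G : Type) [Group G] {V : Type} [MulAction G V] (a b : V) (g : G) :
    Subgroup G :=
  EdgeStabilizer G a b ⊓ (EdgeStabilizer G a b).map (MulAut.conj g).toMonoidHom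

open Pool.Agent.T6.H46.RC Pool.Agent.T6.H46.RR Pool.Agent.T6.H67.TA Pool.Agent.K6.H64.RA

/-- `Intersection G a b g` is the pointwise stabiliser of `a`, `b`, `g a`, `g b`. -/
theorem mem_Intersection {G : Type} [Group G] {V : Type} [MulAction G V] (a b : V) (g s : G) :
    s ∈ Intersection G a b g ↔ s ∈ Sg a b g := by
  rw [mem_Sg]
  constructor
  · rintro ⟨⟨h1, h2⟩, s', ⟨h3, h4⟩, rfl⟩
    refine ⟨⟨h1, h2⟩, ?_, ?_⟩
    · show (g * s' * g⁻¹) • g • a = g • a
      rw [mul_smul, mul_smul, inv_smul_smul, MulAction.mem_stabilizer_iff.1 h3]
    · show (g * s' * g⁻¹) • g • b = g • b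
      rw [mul_smul, mul_smul, inv_smul_smul, MulAction.mem_stabilizer_iff.1 h4]
  · rintro ⟨⟨h1, h2⟩, h3, h4⟩
    refine ⟨⟨MulAction.mem_stabilizer_iff.2 h1, MulAction.mem_stabilizer_iff.2 h2⟩,
      g⁻¹ * s * g, ⟨MulAction.mem_stabilizer_iff.2 ?_, MulAction.mem_stabilizer_iff.2 ?_⟩, ?_⟩
    · rw [mul_smul, mul_smul, h3, inv_smul_smul]
    · rw [mul_smul, mul_smul, h4, inv_smul_smul]
    · show g * (g⁻¹ * s * g) * g⁻¹ = s
      group

/-- Let `G` act geometrically (by isometries, properly discontinuously, cocompactly) on a nonempty
proper geodesically complete CAT(0) space `X`, and let `G` act on a tree `T` by graph automorphisms.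
Let `{a, b}` be an edge of `T` with pointwise stabiliser `K`, such that
* there is `p` in `G` such that the segment from `a` to `p a` starts with `a, b` and ends with
  `p b, p a` (for instance any `p` which fixes `b` and not `a`);
* there is `q` in `G` such that the segment from `b` to `q b` starts with `b, a` and ends with
  `q a, q b` (for instance any `q` which fixes `a` and not `b`).
Let `g` be an element of `G` and let `L = K ∩ gKg⁻¹`.
(A) If `L` is virtually (finitely generated abelian), then `G` contains a rank one isometry of `X`,
or `X` is isometric to a product `Y × ℝ`, where `Y` has more than one point.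
(B) If `L` acts cocompactly on a closed convex subset `B` of `X`, and contains an element which is
rank one in `B`, then `G` contains a rank one isometry of `X`, or `X` is isometric to a product
`Z × B₀`, where `Z` and `B₀` have more than one point and `B₀` is a closed convex subset of `B`, on
which `L` acts cocompactly. -/
theorem result {X : Type} [MetricSpace X] [ProperSpace X] [Nonempty X] (hX : BruhatTits X)
    (hc : GeodesicallyComplete X)
    {G : Type} [Group G] [MulAction G X] [IsIsometricSMul G X] [ProperlyDiscontinuousSMul G X]
    (hcc : ∃ C : Set X, IsCompact C ∧ ∀ x : X, ∃ g : G, g • x ∈ C)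
    {V : Type} {T : SimpleGraph V} (hT : T.IsTree) [MulAction G V]
    (hact : ∀ (g : G) (u v : V), T.Adj u v → T.Adj (g • u) (g • v))
    {a b : V} (hab : T.Adj a b)
    (hp : ∃ p : G, T.dist a (p • a) = T.dist b (p • b) + 2)
    (hq : ∃ q : G, T.dist b (q • b) = T.dist a (q • a) + 2)
    (g : G) :
    (VirtuallyFGAbelian (Intersection G a b g) →
      (∃ g : G, IsRankOneIn (univ : Set X) g) ∨
      ∃ (Y : Type) (_ : MetricSpace Y) (_ : Nontrivial Y) (e : X ≃ Y × ℝ), ∀ x x' : X,
        dist x x' ^ 2 = dist (e x).1 (e x').1 ^ 2 + dist (e x).2 (e x').2 ^ 2) ∧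
    (∀ B : Set X, ConvexCocompact (Intersection G a b g) B →
      (∃ k ∈ Intersection G a b g, IsRankOneIn B k) →
      (∃ g : G, IsRankOneIn (univ : Set X) g) ∨
      ∃ B₀ : Set X, B₀ ⊆ B ∧ ConvexCocompact (Intersection G a b g) B₀ ∧ Nontrivial B₀ ∧
        ∃ (Z : Type) (_ : MetricSpace Z) (_ : Nontrivial Z) (e : X ≃ Z × B₀), ∀ x x' : X,
          dist x x' ^ 2 = dist (e x).1 (e x').1 ^ 2 + dist (e x).2 (e x').2 ^ 2) := by
  have hG : Pool.Agent.Y34.HB.Geo X G := ⟨inferInstance, inferInstance, inferInstance, hcc, hX⟩
  have hR : ∀ (g' : G) (τ' : ℝ) (c' : ℝ → X), 0 < τ' → Isometry c' →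
      (∀ t, g' • c' t = c' (t + τ')) → Pool.Agent.Y34.HB.HP c' = ∅ →
      IsRankOneIn (univ : Set X) g' := by
    intro g' τ' c' hτ' hc1 hc2 he
    refine ⟨τ', c', hτ', hc1, fun _ => mem_univ _, hc2, ?_⟩
    rintro ⟨H, hH1, -, hH2⟩
    have : H ∈ Pool.Agent.Y34.HB.HP c' := ⟨hH1, hH2⟩
    rw [he] at this
    exact this
  obtain ⟨p, hp⟩ := hp
  obtain ⟨q, hq⟩ := hq
  have hp' : Fac T a b p := by unfold Fac D; exact_mod_cast hp
  have hq' : Fac T b a q := by unfold Fac D; exact_mod_cast hq
  constructor
  · intro hg
    obtain ⟨x⟩ := ‹Nonempty X›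
    have hVA : VA (Sg a b g) := VA.mono hg fun s hs => (mem_Intersection a b g s).2 hs
    rcases Pool.Agent.K6.H64.RA.main hT hact hG hc x hab (p := p) (q := q) hp' hq' hVA with
      ⟨g', τ', c', hτ', ⟨hc1, hc2⟩, he⟩ | h
    · exact Or.inl ⟨g', hR g' τ' c' hτ' hc1 hc2 he⟩
    · exact Or.inr h
  · rintro B hB ⟨k, hkK, τ, c, hτ, hci, hcB, hkc, hno⟩
    obtain ⟨b1, b2, b3, b4, b5⟩ := hB
    have hB' : CC (Intersection G a b g) B := ⟨b1, b2, b3, b4, b5⟩
    have hax : @Pool.Agent.Y34.HB.Axis B _ (Intersection G a b g) _ (bact hB') ⟨k, hkK⟩ τ
        (fun t => ⟨c t, hcB t⟩) :=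
      ⟨Isometry.of_dist_eq fun s t => hci.dist_eq s t, fun t => Subtype.ext (hkc t)⟩
    have hHP : Pool.Agent.Y34.HB.HP (fun t => (⟨c t, hcB t⟩ : B)) = ∅ := by
      rw [eq_empty_iff_forall_notMem]
      rintro H ⟨h1, h2⟩
      exact hno ⟨fun z => H z, h1, fun z => (H z).2, fun t => congrArg Subtype.val (h2 t)⟩
    rcases Pool.Agent.K6.H64.RB.main hT hact hG hc hB' ⟨k, hkK⟩ hτ hax hHP hab
      (mem_Intersection a b g) (p := p) (q := q) hp' hq' with
      ⟨g', τ', c', hτ', ⟨hc1, hc2⟩, he⟩ | ⟨B₀, hsub, h₀, hn, h⟩
    · exact Or.inl ⟨g', hR g' τ' c' hτ' hc1 hc2 he⟩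
    · right
      obtain ⟨c1, c2, c3, c4, c5⟩ := h₀
      exact ⟨B₀, hsub, ⟨c1, c2, c3, c4, c5⟩, hn, h⟩

end Pool.Agent.Results.MP_ff40e8_al.IntersectionsOfEdgeGroups
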