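import Pool.Agent.K6.H99.RO.Osc

/-!
# Rank one isometries and functions whose gradient decays faster than the inverse distance

Let `G` act geometrically on a proper CAT(0) space `X`; the length of `x ∈ G` is
`|x| = d(o, x o)`.

(1) An element `g` of `G` is rank one if and only if there is a function `f : G → [0, 1]` with
`|f(x s) - f(x)| = O(1 / (|x| log |x|))` for every `s`, such that `f(g ^ n) = 1` and
`f(g ^ (-n)) = 0` for all large `n`.  If `g` has infinite order and is not rank one then
`|f(g ^ n) - f(g ^ (-n))| ≤ C N` for all large `n`, for every `f` with `|x| |f(x s) - f(x)| ≤ N`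
for the elements `s` of a certain finite set and all but finitely many `x`; the constant `C` does
not depend on `f`.

(2) Let `X` be geodesically complete.  Then `G` contains no rank one isometry if and only if a
Poincaré inequality holds at infinity: for every `D` there are a finite set `S` and a constant `C`
such that `|f(g) - f(h)| ≤ C N` for all large elements `g`, `h` with `| |g| - |h| | ≤ D` and all
functions `f` with `|x| |f(x s) - f(x)| ≤ N` for `s ∈ S` and all but finitely many `x`.

So there is a gap: if some function with gradient `o(1 / |x|)` does not become constant on spheres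
then there is a function with values `0` and `1` on all large spheres and with gradient
`O(1 / (|x| log |x|))`.

Idea of the proof.  Let `c` be a rank one axis and let `β` be the difference of the Busemann
functions of the two ends of `c`.  The segments from `y` to the two ends of `c` pass near the
projection of `y` to `c`, so the quadrilateral inequality gives that the gradient of `β` at `y` is
`O(1 / d(y, c))`.  Moreover `β` is, up to a bounded error, twice the coordinate of the projection.
The function is a truncation of `β / log |x|`.  Conversely, if `c` bounds a flat half-plane then the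
ends are joined by curves of length `O(r)` outside of the ball of radius `r`.  In the absence of
rank one isometries this is true for any two points of a sphere, by a theorem of the starting
library (Y34.EL).
-/

set_option autoImplicit false

namespace Pool.Agent.Results.MP_ff40e8_al.SlowOscillation

open Set Filter Topology

/-- The inequality of Bruhat and Tits: a complete metric space is CAT(0) if and only if any two
points `p`, `q` have a midpoint `m` such that
`d(x, m)² ≤ (d(x, p)² + d(x, q)²) / 2 - d(p, q)² / 4` for all `x`. -/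
def BruhatTits (X : Type) [MetricSpace X] : Prop := ∀ p q : X, ∃ m : X, ∀ x : X,
  dist x m ^ 2 ≤ (dist x p ^ 2 + dist x q ^ 2) / 2 - dist p q ^ 2 / 4

/-- Every geodesic segment extends to a geodesic line: for `p ≠ q` there is a line through `p` and
`q` (in a CAT(0) space it contains the unique geodesic segment from `p` to `q`). -/
def GeodesicallyComplete (X : Type) [MetricSpace X] : Prop :=
  ∀ p q : X, p ≠ q → ∃ c : ℝ → X, Isometry c ∧ c 0 = p ∧ c (dist p q) = q

/-- The line `c` bounds a flat half-plane: there is an isometric embedding `H` of the Euclidean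
half-plane `ℝ × [0, ∞)` in `X` which extends `c`. -/
def BoundsHalfPlane {X : Type} [MetricSpace X] (c : ℝ → X) : Prop :=
  ∃ H : ℝ × NNReal → X,
    (∀ p q : ℝ × NNReal, dist (H p) (H q) ^ 2 = (p.1 - q.1) ^ 2 + ((p.2 : ℝ) - q.2) ^ 2) ∧
    ∀ t : ℝ, H (t, 0) = c t

/-- `g` is a rank one isometry of `X`: it translates a geodesic line `c` by `τ > 0`, and this axis
does not bound a flat half-plane. -/
def IsRankOne (X : Type) [MetricSpace X] {G : Type} [Group G] [MulAction G X] (g : G) : Prop :=
  ∃ (τ : ℝ) (c : ℝ → X), 0 < τ ∧ Isometry c ∧ (∀ t, g • c t = c (t + τ)) ∧ ¬ BoundsHalfPlane c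

/-- For every `s` in `G` there is a constant `C` with
`|f(x s) - f(x)| ≤ C / (|x| log |x|)` for all `x` with `|x| = d(o, x o) ≥ 2`. -/
def LogGradient {X : Type} [MetricSpace X] {G : Type} [Group G] [MulAction G X] (o : X)
    (f : G → ℝ) : Prop :=
  ∀ s : G, ∃ C : ℝ, ∀ x : G, 2 ≤ dist o (x • o) →
    |f (x * s) - f x| ≤ C / (dist o (x • o) * Real.log (dist o (x • o)))

/-- `|x| |f(x s) - f(x)| ≤ N` for all `s` in the finite set `S` and all but finitely many `x` in
`G`, where `|x| = d(o, x o)`. -/
def GradientLE {X : Type} [MetricSpace X] {G : Type} [Group G] [MulAction G X] (o : X)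
    (S : Finset G) (f : G → ℝ) (N : ℝ) : Prop :=
  ∀ᶠ x : G in cofinite, ∀ s ∈ S, dist o (x • o) * |f (x * s) - f x| ≤ N

open Pool.Agent.K6.H99.RO Pool.Agent.T6.H46.RR in
lemma gradientLE_of_log {X : Type} [MetricSpace X] {G : Type} [Group G] [MulAction G X]
    (hG : Pool.Agent.Y34.HB.Geo X G) {o : X} {f : G → ℝ} (h : LogGradient o f) (S : Finset G)
    {ε : ℝ} (hε : 0 < ε) : GradientLE o S f ε := by
  unfold GradientLE
  rw [eventually_all_finset]
  intro s _
  obtain ⟨C, hC⟩ := h s
  have h1 : {x : G | dist o (x • o) ≤ max 2 (Real.exp (|C| / ε))}.Finite := finite_short hG o _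
  filter_upwards [h1.eventually_cofinite_notMem] with x hx
  have hx' : max 2 (Real.exp (|C| / ε)) < dist o (x • o) := not_le.1 hx
  set l : ℝ := dist o (x • o) with hl
  have h2 : 2 < l := (le_max_left _ _).trans_lt hx'
  have h3 : Real.exp (|C| / ε) < l := (le_max_right _ _).trans_lt hx'
  have h4 : |C| / ε < Real.log l := (Real.lt_log_iff_exp_lt (by linarith)).2 h3
  have hlog : 0 < Real.log l := Real.log_pos (by linarith)
  have h5 := hC x h2.le
  have h6 : l * |f (x * s) - f x| ≤ l * (C / (l * Real.log l)) :=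
    mul_le_mul_of_nonneg_left h5 (by linarith)
  refine h6.trans ?_
  have h7 : l * (C / (l * Real.log l)) = C / Real.log l := by
    have : l ≠ 0 := by linarith
    field_simp
  rw [h7, div_le_iff₀ hlog]
  rw [div_lt_iff₀ hε] at h4
  have := le_abs_self C
  linarith

/-- Let `G` act geometrically (by isometries, properly discontinuously, cocompactly) on a proper
CAT(0) space `X`, let `o` be a point of `X` and `|x| = d(o, x o)`.
(1) An element `g` of `G` is rank one if and only if there is a function `f : G → [0, 1]` with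
`|f(x s) - f(x)| ≤ C_s / (|x| log |x|)` such that `f(g ^ n) = 1` and `f(g ^ (-n)) = 0` for all
large `n`.  If `g` has infinite order and is not rank one then there are a finite set `S` and a
constant `C` such that `|f(g ^ n) - f(g ^ (-n))| ≤ C N` for all large `n` whenever
`|x| |f(x s) - f(x)| ≤ N` for `s` in `S` and all but finitely many `x`.
(2) If `X` is geodesically complete then `G` contains no rank one isometry if and only if for every
`D ≥ 0` there are a finite set `S` and a constant `C` such that `|f(g) - f(h)| ≤ C N` for all large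
`g`, `h` with `| |g| - |h| | ≤ D` whenever `|x| |f(x s) - f(x)| ≤ N` for `s` in `S` and all but
finitely many `x`. -/
theorem result {X : Type} [MetricSpace X] [ProperSpace X] (hX : BruhatTits X)
    {G : Type} [Group G] [MulAction G X] [IsIsometricSMul G X] [ProperlyDiscontinuousSMul G X]
    (hcc : ∃ C : Set X, IsCompact C ∧ ∀ x : X, ∃ g : G, g • x ∈ C) (o : X) :
    (∀ g : G,
      (IsRankOne X g ↔ ∃ f : G → ℝ, (∀ x, 0 ≤ f x ∧ f x ≤ 1) ∧ LogGradient o f ∧
        (∀ᶠ n : ℕ in atTop, f (g ^ n) = 1) ∧ ∀ᶠ n : ℕ in atTop, f (g⁻¹ ^ n) = 0) ∧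
      (¬ IsOfFinOrder g → ¬ IsRankOne X g → ∃ (S : Finset G) (C : ℝ), ∀ (f : G → ℝ) (N : ℝ),
        0 ≤ N → GradientLE o S f N → ∀ᶠ n : ℕ in atTop, |f (g ^ n) - f (g⁻¹ ^ n)| ≤ C * N)) ∧
    (GeodesicallyComplete X →
      ((∀ g : G, ¬ IsRankOne X g) ↔ ∀ D : ℝ, 0 ≤ D → ∃ (S : Finset G) (C : ℝ),
        ∀ (f : G → ℝ) (N : ℝ), 0 ≤ N → GradientLE o S f N → ∃ ρ : ℝ, ∀ g h : G,
          ρ ≤ dist o (g • o) → |dist o (g • o) - dist o (h • o)| ≤ D → |f g - f h| ≤ C * N)) := by
  have hG : Pool.Agent.Y34.HB.Geo X G := ⟨inferInstance, inferInstance, inferInstance, hcc, hX⟩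
  -- a function with slow gradient which separates the ends
  have slow : ∀ g : G, IsRankOne X g → ∃ f : G → ℝ, (∀ x, 0 ≤ f x ∧ f x ≤ 1) ∧
      LogGradient o f ∧ (∀ᶠ n : ℕ in atTop, f (g ^ n) = 1) ∧
        ∀ᶠ n : ℕ in atTop, f (g⁻¹ ^ n) = 0 := by
    rintro g ⟨τ, c, hτ, hc1, hc2, hc3⟩
    exact Pool.Agent.K6.H99.RO.slow_of_rank_one hG hτ (g := g) (c := c) ⟨hc1, hc2⟩ (by
      by_contra hne
      obtain ⟨H, hH⟩ := nonempty_iff_ne_empty.2 hne
      exact hc3 ⟨H, hH⟩) o
  have osc : ∀ g : G, ¬ IsOfFinOrder g → ¬ IsRankOne X g →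
      ∃ (S : Finset G) (C : ℝ), ∀ (f : G → ℝ) (N : ℝ),
        0 ≤ N → GradientLE o S f N → ∀ᶠ n : ℕ in atTop, |f (g ^ n) - f (g⁻¹ ^ n)| ≤ C * N := by
    intro g hg hno
    obtain ⟨τ, c, hτ, hc⟩ := Pool.Agent.R632.CZ.axis_of_infinite hG hg o
    have h1 : BoundsHalfPlane c := by
      by_contra hcon
      exact hno ⟨τ, c, hτ, hc.1, hc.2, hcon⟩
    obtain ⟨H, hH⟩ := h1
    exact Pool.Agent.K6.H99.RO.osc_axis hG hτ hc (H := H) hH o
  refine ⟨fun g => ⟨⟨slow g, ?_⟩, osc g⟩, fun hGC => ⟨fun hno D hD => ?_, fun hosc g hg => ?_⟩⟩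
  · rintro ⟨f, -, hf, h1, h0⟩
    by_cases hg : IsOfFinOrder g
    · exfalso
      obtain ⟨n, hn0, hn1⟩ := isOfFinOrder_iff_pow_eq_one.1 hg
      obtain ⟨M, hM⟩ := eventually_atTop.1 (h1.and h0)
      obtain ⟨h3, h4⟩ := hM (n * M) (Nat.le_mul_of_pos_left M hn0)
      rw [inv_pow, pow_mul, hn1, one_pow, inv_one] at h4
      rw [pow_mul, hn1, one_pow, h4] at h3
      exact zero_ne_one h3
    · by_contra hno
      obtain ⟨S, C, hC⟩ := osc g hg hno
      have hN : (0 : ℝ) < 1 / (2 * (|C| + 1)) := by positivity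
      obtain ⟨n, ⟨h2, h3⟩, h4⟩ :=
        ((h1.and h0).and (hC f _ hN.le (gradientLE_of_log hG hf S hN))).exists
      rw [h2, h3, sub_zero, abs_one] at h4
      have h5 : C * (1 / (2 * (|C| + 1))) ≤ |C| * (1 / (2 * (|C| + 1))) :=
        mul_le_mul_of_nonneg_right (le_abs_self _) hN.le
      have h6 : |C| * (1 / (2 * (|C| + 1))) < 1 := by
        rw [mul_one_div, div_lt_one (by positivity)]
        have := abs_nonneg C
        linarith
      linarith
  · refine Pool.Agent.K6.H99.RO.osc_sphere hG (fun p q hpq => hGC p q hpq) ?_ o D hD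
    rintro g ⟨τ, c, hτ, hc, he⟩
    refine hno g ⟨τ, c, hτ, hc.1, hc.2, ?_⟩
    rintro ⟨H, hH⟩
    have : H ∈ Pool.Agent.Y34.HB.HP c := hH
    rw [he] at this
    exact this
  · obtain ⟨f, -, hf, h1, h0⟩ := slow g hg
    obtain ⟨S, C, hC⟩ := hosc 0 le_rfl
    have hN : (0 : ℝ) < 1 / (2 * (|C| + 1)) := by positivity
    obtain ⟨ρ, hρ⟩ := hC f _ hN.le (gradientLE_of_log hG hf S hN)
    obtain ⟨τ, c, hτ, hc1, hc2, -⟩ := hg
    have hinf := Pool.Agent.K6.H99.RO.axis_inf hτ (g := g) (c := c) ⟨hc1, hc2⟩
    have h2 : ∀ᶠ n : ℕ in atTop, ρ ≤ dist o (g ^ n • o) := by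
      have h3 := Pool.Agent.K6.H99.RO.ev_avoid hinf
        (Pool.Agent.T6.H46.RR.finite_short hG o ρ) 1
      filter_upwards [h3] with n hn
      rw [mul_one] at hn
      exact (not_le.1 hn).le
    obtain ⟨n, ⟨h3, h4⟩, h5⟩ := ((h1.and h0).and h2).exists
    have h6 : dist o (g⁻¹ ^ n • o) = dist o (g ^ n • o) := by
      rw [inv_pow, ← dist_smul (g ^ n) o, smul_inv_smul, dist_comm]
    have h7 := hρ (g ^ n) (g⁻¹ ^ n) h5 (by rw [h6, sub_self, abs_zero])
    rw [h3, h4, sub_zero, abs_one] at h7
    have h8 : C * (1 / (2 * (|C| + 1))) ≤ |C| * (1 / (2 * (|C| + 1))) :=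
      mul_le_mul_of_nonneg_right (le_abs_self _) hN.le
    have h9 : |C| * (1 / (2 * (|C| + 1))) < 1 := by
      rw [mul_one_div, div_lt_one (by positivity)]
      have := abs_nonneg C
      linarith
    linarith

end Pool.Agent.Results.MP_ff40e8_al.SlowOscillation
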